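import Pool.Agent.R857.OC.A
import Pool.Agent.R857.OC.B
import Pool.Agent.R857.OC.A1
import Pool.Agent.R857.OC.A2
import Pool.Agent.R857.OC.C

/-! MP_6bdd40_al, Q1 is false: there are a finite `3`-group `P`, an irreducible complex
representation `ρ` of `P` with character `χ` and an element `x` with `χ(x) ≠ 0` whose order does
not divide `|P| / χ(1)²`.

The group is `P = Ŵ ⋊ G`, where `G` is a finite `3`-group acting on a finite abelian group `W`
with `|W| = 9 |G|`, exponent `27`, and `ρ` is the representation on functions on a regular orbit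
of `G` on `W`; the degree is `|G|`, so `|P| / χ(1)² = 9`, while `x ∈ Ŵ` has order `27`. -/

set_option autoImplicit false

namespace Pool.Agent.Results.MP_6bdd40_al.OrderCounterexample

/-- The negation of Q1, with `p = 3`. -/
theorem result :
    ∃ (P : Type) (_ : Group P) (_ : Finite P) (V : Type) (_ : AddCommGroup V) (_ : Module ℂ V)
      (_ : FiniteDimensional ℂ V) (ρ : Representation ℂ P V) (x : P),
      IsPGroup 3 P ∧ ρ.IsIrreducible ∧ ρ.character x ≠ 0 ∧
      Module.finrank ℂ V ^ 2 ∣ Nat.card P ∧
      ¬ orderOf x ∣ Nat.card P / Module.finrank ℂ V ^ 2 :=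
  Pool.Agent.R857.OC.A.main Pool.Agent.R857.OC.A1.main Pool.Agent.R857.OC.A2.main
    (Pool.Agent.R857.OC.B.main Pool.Agent.R857.OC.C.main)

end Pool.Agent.Results.MP_6bdd40_al.OrderCounterexample
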